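import Pool.Agent.PLG.Stmts

/-!
Squad PLG (MP_1fc801_co), row CLS: dyadic classes.
-/

set_option autoImplicit false

namespace Pool.Agent.PLG.H3

theorem cls : ClsStmt := by
  intro K C₀ hK hC₀
  have hC₀' : C₀ ≠ 0 := by omega
  have hC₀R : (0 : ℝ) < (C₀ : ℝ) := by exact_mod_cast Nat.pos_of_ne_zero hC₀'
  set θ : ℝ := (1 / 2 : ℝ) ^ ((C₀ : ℝ)⁻¹) with hθ
  have hθ0 : 0 < θ := Real.rpow_pos_of_pos (by norm_num) _
  have hθ1 : θ < 1 := Real.rpow_lt_one (by norm_num) (by norm_num) (inv_pos.mpr hC₀R)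
  have hθC : θ ^ C₀ = 1 / 2 := Real.rpow_inv_natCast_pow (by norm_num) hC₀'
  have h1θ : 0 < (1 - θ)⁻¹ := inv_pos.mpr (by linarith)
  have hCK : 0 ≤ (C₀ : ℝ) * K := by positivity
  refine ⟨4 * (1 + C₀ * K + (1 - θ)⁻¹) + 1, by linarith, ?_⟩
  intro T m n hn hT hN hB
  by_contra hcon
  push Not at hcon
  have hn0 : 0 < n := by linarith
  have hlog0 : 0 ≤ Real.log n := Real.log_nonneg hn
  set Λ : ℝ := 16 * (1 + Real.log n) with hΛ
  have hΛ16 : 16 ≤ Λ := by rw [hΛ]; linarith
  set N : ℕ → ℝ := fun i => ((T.filter (fun t => ((2 : ℝ) ^ i) ≤ m t)).card : ℝ) with hNdef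
  have hN0 : ∀ i, 0 ≤ N i := fun i => Nat.cast_nonneg _
  set x : ℕ → ℝ := fun i => N i * 4 ^ i / n with hx
  have hx0 : ∀ i, 0 ≤ x i := fun i => div_nonneg (mul_nonneg (hN0 i) (by positivity)) hn0.le
  have hxn : ∀ i, N i * 4 ^ i = x i * n := by
    intro i
    rw [hx]
    field_simp
  have h24 : ∀ i : ℕ, ((2 : ℝ) ^ i) ^ 2 = 4 ^ i := by
    intro i
    rw [← pow_mul, mul_comm, pow_mul]
    norm_num
  -- the trivial bound
  have hxK : ∀ i, x i ≤ K := by
    intro i
    have h3 := hN 3 (le_refl 3)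
    have hall : (T.filter (fun t => (3 : ℝ) ≤ m t)) = T := by
      refine Finset.filter_true_of_mem fun t ht => ?_
      exact_mod_cast (hT t ht).1
    rw [hall] at h3
    have hle : N i ≤ (T.card : ℝ) := by
      exact Nat.cast_le.mpr (Finset.card_filter_le T _)
    rw [hx, div_le_iff₀ hn0]
    rcases Nat.lt_or_ge i 2 with hi | hi
    · have h4 : (4 : ℝ) ^ i ≤ 4 := by
        calc (4 : ℝ) ^ i ≤ 4 ^ 1 := pow_le_pow_right₀ (by norm_num) (by omega)
          _ = 4 := by norm_num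
      calc N i * 4 ^ i ≤ (T.card : ℝ) * 4 := mul_le_mul hle h4 (by positivity) (Nat.cast_nonneg _)
        _ ≤ (T.card : ℝ) * 3 ^ 2 := by
            have : (0 : ℝ) ≤ T.card := Nat.cast_nonneg _
            nlinarith
        _ ≤ K * n := h3
    · have h3' : (3 : ℝ) ≤ 2 ^ i := by
        calc (3 : ℝ) ≤ 2 ^ 2 := by norm_num
          _ ≤ 2 ^ i := pow_le_pow_right₀ (by norm_num) hi
      have h5 := hN (2 ^ i) h3'
      rw [h24] at h5
      exact h5
  -- the main bound
  have hxm : ∀ i, x i ≤ 1 / Λ + (if i < C₀ then K else 0) + θ ^ i := by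
    intro i
    have hθi : 0 < θ ^ i := pow_pos hθ0 i
    have hΛi : 0 < 1 / Λ := by positivity
    have hif : 0 ≤ (if i < C₀ then K else 0 : ℝ) := by
      split_ifs
      · linarith
      · exact le_refl 0
    by_cases hbig : 1 / Λ ≤ x i
    · have hxpos : 0 < x i := lt_of_lt_of_le hΛi hbig
      have hinv : 1 / x i ≤ Λ := by
        rw [div_le_iff₀ hxpos]
        rw [div_le_iff₀ (by linarith : (0 : ℝ) < Λ)] at hbig
        linarith
      have hcase := hcon (max 2 (1 / x i)) (2 ^ i) (le_max_left _ _)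
        (max_le (by linarith) hinv)
      have hn' : n ≤ max 2 (1 / x i) * ((T.filter (fun t => ((2 : ℝ) ^ i) ≤ m t)).card : ℝ) *
          ((2 : ℝ) ^ i) ^ 2 := by
        rw [h24]
        have h6 : N i * 4 ^ i = x i * n := hxn i
        have h7 : 1 / x i * (N i * 4 ^ i) = n := by
          rw [h6]
          field_simp
        have h8 : 1 / x i * (N i * 4 ^ i) ≤ max 2 (1 / x i) * (N i * 4 ^ i) :=
          mul_le_mul_of_nonneg_right (le_max_right _ _) (mul_nonneg (hN0 i) (by positivity))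
        calc n = 1 / x i * (N i * 4 ^ i) := h7.symm
          _ ≤ max 2 (1 / x i) * (N i * 4 ^ i) := h8
          _ = _ := by rw [hNdef]; ring
      have hlt : (2 : ℝ) ^ i < (max 2 (1 / x i)) ^ C₀ := by
        by_contra hge
        push Not at hge
        have := hcase hge
        linarith
      rcases le_total (1 / x i) 2 with h2 | h2
      · rw [max_eq_left h2] at hlt
        have hi : i < C₀ := (pow_lt_pow_iff_right₀ (by norm_num : (1 : ℝ) < 2)).mp hlt
        rw [if_pos hi]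
        have := hxK i
        linarith
      · rw [max_eq_right h2] at hlt
        have h9 : x i < θ ^ i := by
          by_contra hge
          push Not at hge
          have h10 : (θ ^ i) ^ C₀ ≤ (x i) ^ C₀ := pow_le_pow_left₀ hθi.le hge _
          have h11 : (θ ^ i) ^ C₀ = (1 / 2) ^ i := by
            rw [← pow_mul, mul_comm, pow_mul, hθC]
          rw [h11] at h10
          have h12 : (1 / x i) ^ C₀ ≤ 2 ^ i := by
            rw [one_div, inv_pow]
            rw [one_div, inv_pow] at h10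
            have h13 : 0 < ((2 : ℝ) ^ i)⁻¹ := by positivity
            calc ((x i) ^ C₀)⁻¹ ≤ (((2 : ℝ) ^ i)⁻¹)⁻¹ := inv_anti₀ h13 h10
              _ = 2 ^ i := inv_inv _
          linarith
        linarith
    · push Not at hbig
      linarith
  -- the sum over the classes
  set M : ℕ := Nat.log 2 ⌊n⌋₊ with hM
  have hfl : 1 ≤ ⌊n⌋₊ := Nat.one_le_floor_iff _ |>.mpr hn
  have hMlog : (M : ℝ) ≤ 2 * Real.log n := by
    have h1 : 2 ^ M ≤ ⌊n⌋₊ := Nat.pow_log_le_self 2 (by omega)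
    have h2 : ((2 : ℝ)) ^ M ≤ n := by
      calc ((2 : ℝ)) ^ M = ((2 ^ M : ℕ) : ℝ) := by push_cast; rfl
        _ ≤ (⌊n⌋₊ : ℝ) := by exact_mod_cast h1
        _ ≤ n := Nat.floor_le hn0.le
    have h3 : (M : ℝ) * Real.log 2 ≤ Real.log n := by
      rw [← Real.log_pow]
      exact Real.log_le_log (by positivity) h2
    have h4 : (0.5 : ℝ) < Real.log 2 := by
      have := Real.log_two_gt_d9
      linarith
    have h5 : (M : ℝ) * 0.5 ≤ Real.log n :=
      (mul_le_mul_of_nonneg_left h4.le (Nat.cast_nonneg _)).trans h3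
    linarith
  have hsum : ∑ t ∈ T, (m t : ℝ) ^ 2 ≤ 4 * ∑ i ∈ Finset.range (M + 1), N i * 4 ^ i := by
    have h1 : ∀ t ∈ T, (m t : ℝ) ^ 2 ≤
        4 * ∑ i ∈ Finset.range (M + 1), (if (2 : ℝ) ^ i ≤ m t then (4 : ℝ) ^ i else 0) := by
      intro t ht
      have hm3 := (hT t ht).1
      have hmn := (hT t ht).2
      set i := Nat.log 2 (m t) with hi
      have hi1 : 2 ^ i ≤ m t := Nat.pow_log_le_self 2 (by omega)
      have hi2 : m t < 2 ^ (i + 1) := Nat.lt_pow_succ_log_self (by norm_num) _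
      have hiM : i ≤ M := Nat.log_mono_right (Nat.le_floor hmn)
      have hi1' : (2 : ℝ) ^ i ≤ m t := by exact_mod_cast hi1
      have hi2' : (m t : ℝ) ≤ 2 ^ (i + 1) := by exact_mod_cast hi2.le
      have h2 : (4 : ℝ) ^ i ≤ ∑ k ∈ Finset.range (M + 1),
          (if (2 : ℝ) ^ k ≤ m t then (4 : ℝ) ^ k else 0) := by
        calc (4 : ℝ) ^ i = (if (2 : ℝ) ^ i ≤ m t then (4 : ℝ) ^ i else 0) := by rw [if_pos hi1']
          _ ≤ _ := Finset.single_le_sum
              (f := fun k => (if (2 : ℝ) ^ k ≤ m t then (4 : ℝ) ^ k else 0))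
              (fun k _ => by
                show 0 ≤ (if (2 : ℝ) ^ k ≤ m t then (4 : ℝ) ^ k else 0)
                split_ifs
                · positivity
                · exact le_refl 0)
              (Finset.mem_range.mpr (by omega))
      calc (m t : ℝ) ^ 2 ≤ ((2 : ℝ) ^ (i + 1)) ^ 2 := pow_le_pow_left₀ (Nat.cast_nonneg _) hi2' 2
        _ = 4 * 4 ^ i := by rw [h24, pow_succ]; ring
        _ ≤ _ := mul_le_mul_of_nonneg_left h2 (by norm_num)
    calc ∑ t ∈ T, (m t : ℝ) ^ 2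
        ≤ ∑ t ∈ T, 4 * ∑ i ∈ Finset.range (M + 1),
            (if (2 : ℝ) ^ i ≤ m t then (4 : ℝ) ^ i else 0) := Finset.sum_le_sum h1
      _ = 4 * ∑ i ∈ Finset.range (M + 1), ∑ t ∈ T,
            (if (2 : ℝ) ^ i ≤ m t then (4 : ℝ) ^ i else 0) := by
          rw [← Finset.mul_sum, Finset.sum_comm]
      _ = 4 * ∑ i ∈ Finset.range (M + 1), N i * 4 ^ i := by
          congr 1
          refine Finset.sum_congr rfl fun i _ => ?_
          rw [← Finset.sum_filter, Finset.sum_const, nsmul_eq_mul]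
  have hgeom : ∑ i ∈ Finset.range (M + 1), θ ^ i ≤ (1 - θ)⁻¹ := by
    rw [← tsum_geometric_of_lt_one hθ0.le hθ1]
    exact (summable_geometric_of_lt_one hθ0.le hθ1).sum_le_tsum _ (fun i _ => (pow_pos hθ0 i).le)
  have hifsum : ∑ i ∈ Finset.range (M + 1), (if i < C₀ then K else 0 : ℝ) ≤ C₀ * K := by
    rw [← Finset.sum_filter, Finset.sum_const, nsmul_eq_mul]
    refine mul_le_mul_of_nonneg_right ?_ (by linarith)
    have h1 : ((Finset.range (M + 1)).filter (fun i => i < C₀)).card ≤ (Finset.range C₀).card := by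
      refine Finset.card_le_card fun i hi => ?_
      rw [Finset.mem_filter] at hi
      exact Finset.mem_range.mpr hi.2
    rw [Finset.card_range] at h1
    exact_mod_cast h1
  have hxsum : ∑ i ∈ Finset.range (M + 1), x i ≤ 1 + C₀ * K + (1 - θ)⁻¹ := by
    calc ∑ i ∈ Finset.range (M + 1), x i
        ≤ ∑ i ∈ Finset.range (M + 1), (1 / Λ + (if i < C₀ then K else 0) + θ ^ i) :=
          Finset.sum_le_sum fun i _ => hxm i
      _ = (M + 1 : ℝ) * (1 / Λ) + ∑ i ∈ Finset.range (M + 1), (if i < C₀ then K else 0 : ℝ) +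
          ∑ i ∈ Finset.range (M + 1), θ ^ i := by
          rw [Finset.sum_add_distrib, Finset.sum_add_distrib, Finset.sum_const, Finset.card_range,
            nsmul_eq_mul]
          push_cast
          ring
      _ ≤ 1 + C₀ * K + (1 - θ)⁻¹ := by
          have h1 : (M + 1 : ℝ) * (1 / Λ) ≤ 1 := by
            rw [mul_one_div, div_le_one (by linarith)]
            rw [hΛ]
            linarith
          linarith
  have hfin : ∑ t ∈ T, (m t : ℝ) ^ 2 ≤ 4 * (1 + C₀ * K + (1 - θ)⁻¹) * n := by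
    calc ∑ t ∈ T, (m t : ℝ) ^ 2 ≤ 4 * ∑ i ∈ Finset.range (M + 1), N i * 4 ^ i := hsum
      _ = 4 * ((∑ i ∈ Finset.range (M + 1), x i) * n) := by
          rw [Finset.sum_mul]
          congr 1
          exact Finset.sum_congr rfl fun i _ => hxn i
      _ ≤ 4 * ((1 + C₀ * K + (1 - θ)⁻¹) * n) :=
          mul_le_mul_of_nonneg_left (mul_le_mul_of_nonneg_right hxsum hn0.le) (by norm_num)
      _ = _ := by ring
  linarith

end Pool.Agent.PLG.H3
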